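import Pool.Agent.Y570.SF.Defs
import Pool.Agent.H695R3.SF.S0
import Pool.Agent.H695R3.SF.SZ

/-!
# Hardness for every class containing the trees of radius at most four
-/

set_option autoImplicit false

namespace Pool.Agent.Y570.SF

open Finset
open Pool.Agent.H549R2.Convex (F ent)
open Pool.Agent.NPC Pool.Agent.NPC.Cnt Pool.Agent.NPC.H549NRed Pool.Agent.H695R3.SF
open Pool.Agent.H695R3.SF.S0_ns

/-- walks to the root in a graph given by parents -/
theorem walk_rk {V : Type} (G : SimpleGraph V) (par : V → Option V) (rk : V → ℕ) (r : V)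
    (hp : ∀ v, v ≠ r → ∃ u, par v = some u ∧ rk u < rk v)
    (hadj : ∀ u v, G.Adj u v ↔ par u = some v ∨ par v = some u) :
    ∀ (n : ℕ) (v : V), rk v ≤ n → ∃ p : G.Walk v r, p.length ≤ rk v := by
  intro n
  induction n with
  | zero =>
    intro v hv
    by_cases h : v = r
    · subst h
      exact ⟨SimpleGraph.Walk.nil, by simp⟩
    · obtain ⟨u, _, hlt⟩ := hp v h
      omega
  | succ n ih =>
    intro v hv
    by_cases h : v = r
    · subst h
      exact ⟨SimpleGraph.Walk.nil, by simp⟩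
    · obtain ⟨u, hu, hlt⟩ := hp v h
      obtain ⟨p, hp'⟩ := ih u (by omega)
      refine ⟨SimpleGraph.Walk.cons ((hadj v u).2 (Or.inl hu)) p, ?_⟩
      rw [SimpleGraph.Walk.length_cons]
      omega

/-- the level of a vertex of the tree -/
def rk4 (a : (((LL × Un) × Un) × Un) × Un) : VT a → ℕ
  | Sum.inl v => rkO a.1 v
  | Sum.inr p => 1 + rkO a.1 p.1

theorem rkO_le (a : ((LL × Un) × Un) × Un) (v : Option (WA a.1 ⊕ Fin a.2.length)) :
    rkO a v ≤ 3 := by
  rcases v with _ | ((q | q) | w)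
  · simp [rkO]
  · rcases q with z | p <;> simp [rkO]
  · simp [rkO]
  · simp [rkO]

theorem rk4_le (a : (((LL × Un) × Un) × Un) × Un) (v : VT a) : rk4 a v ≤ 4 := by
  rcases v with v | p
  · have := rkO_le a.1 v
    simp only [rk4]
    omega
  · have := rkO_le a.1 p.1
    simp only [rk4]
    omega

theorem treeI_treeL (h2 : S_T2) (h3 : S_T3) (h4 : S_T4) (h5 : S_T5)
    (a : (((LL × Un) × Un) × Un) × Un) : TreeI (treeL a) := by
  refine ⟨(h2 a).2.1, fun p hp => ?_, (isoT h2 h3 h4 a).isTree_iff.1 (grT_isTree h4 h5 a)⟩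
  obtain ⟨u, v, huv, rfl⟩ := (h3 a p).1 hp
  refine ⟨((h2 a).2.2 _).2 ⟨u, rfl⟩, ((h2 a).2.2 _).2 ⟨v, rfl⟩, fun h => ?_⟩
  exact ((h4 a u v).2 (Or.inl huv)).ne ((h2 a).1 h)

theorem rad_treeL (h2 : S_T2) (h3 : S_T3) (h4 : S_T4)
    (a : (((LL × Un) × Un) × Un) × Un) : Rad 4 (treeL a) := by
  refine ⟨isoT h2 h3 h4 a (Sum.inl none), fun v => ?_⟩
  obtain ⟨u, rfl⟩ := (isoT h2 h3 h4 a).surjective v
  obtain ⟨p, hp⟩ := walk_rk (grT a) (parT a) (rk4 a) (Sum.inl none) (by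
    rintro (v | p) hv
    · obtain ⟨u, hu, hlt⟩ := parO_rk a.1 v (fun h => hv (by rw [h]))
      refine ⟨Sum.inl u, ?_, hlt⟩
      simp [parT, hu]
    · refine ⟨Sum.inl p.1, rfl, ?_⟩
      simp [rk4]) (h4 a) (rk4 a u) u le_rfl
  have h := SimpleGraph.dist_le (p.reverse.map (isoT h2 h3 h4 a).toHom)
  rw [SimpleGraph.Walk.length_map, SimpleGraph.Walk.length_reverse] at h
  exact h.trans (hp.trans (rk4_le a u))

theorem numC_treeL (h2 : S_T2) (h3 : S_T3) (h4 : S_T4) (h5 : S_T5) (h6 : S_T6)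
    (C : Inp → Prop) (hC : ∀ T, TreeI T → Rad 4 T → C T)
    (a : (((LL × Un) × Un) × Un) × Un) : numC C (treeL a) = fU a := by
  have h := treeI_treeL h2 h3 h4 h5 a
  unfold numC
  rw [if_pos ⟨⟨h.1, h.2.1⟩, hC _ h (rad_treeL h2 h3 h4 a)⟩]
  exact (h6 _ _ _ _ ⟨isoT h2 h3 h4 a⟩).symm

theorem S0C (h1 : S_T1) (h2 : S_T2) (h3 : S_T3) (h4 : S_T4) (h5 : S_T5) (h6 : S_T6)
    (C : Inp → Prop) (hC : ∀ T, TreeI T → Rad 4 T → C T) :
    NRed (fun _ : (((LL × Un) × Un) × Un) × Un => True) fU (fun _ : Inp => True) (numC C) := by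
  refine ⟨fun a => [treeL a], fun p => p.2.getD 0 0, Poly.cons h1 (NPC.Poly.const []),
    Poly.getD (Poly.snd Poly.id) (NPC.Poly.const 0) (NPC.Poly.const 0), fun a _ => ?_⟩
  refine ⟨fun _ _ => trivial, ?_⟩
  exact numC_treeL h2 h3 h4 h5 h6 C hC a

theorem SZC (C : Inp → Prop) : ∃ r : Polynomial ℕ, ∀ T : Inp, (numC C T).size ≤ r.eval (sz T) := by
  refine ⟨Polynomial.X, fun T => ?_⟩
  rw [Polynomial.eval_X, Nat.size_le]
  have h1 : numC C T ≤ 2 ^ T.2.length := by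
    unfold numC
    split_ifs
    · exact SZ_ns.cls_le T
    · exact Nat.zero_le _
  refine lt_of_le_of_lt h1 (Nat.pow_lt_pow_right (by norm_num) ?_)
  have h2 := SZ_ns.length_sz T.2
  have h3 : sz T = sz T.1 + sz T.2 + 1 := sz_pair T.1 T.2
  omega

theorem hardC (h1 : S_SE) (h2 : S_SD) (h3 : S_SC) (h4 : S_SB) (h5 : S_SA) (C : Inp → Prop)
    (h6 : NRed (fun _ : (((LL × Un) × Un) × Un) × Un => True) fU (fun _ : Inp => True) (numC C)) :
    SharpPHard (strFn (numC C)) := by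
  obtain ⟨r, hr⟩ := SZC C
  have i1 : DecidableEq (((LL × Un) × Un) × Un) := instDecidableEqProd
  have i2 : DecidableEq ((((LL × Un) × Un) × Un) × Un) := instDecidableEqProd
  have c1 := NRed.comp nred_sat h1
  have c2 := NRed.comp c1 h2
  have c3 := NRed.comp c2 h3
  have c4 := NRed.comp c3 h4
  have c5 := NRed.comp c4 h5
  have c6 := NRed.comp c5 h6
  exact hard_of_nred c6 (fun _ _ => rfl) r hr

end Pool.Agent.Y570.SF
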