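import Pool.Agent.Y570.SF.Defs
import Pool.Agent.H695R3.SF.MF
import Pool.Agent.H695R3.SF.M7
import Pool.Agent.H695R3.SF.M8
import Pool.Agent.H695R3.SF.M10

/-!
# Membership in `FP^#P` for every class decided in polynomial time
-/

set_option autoImplicit false

namespace Pool.Agent.Y570.SF

open Finset
open Pool.Agent.NPC Pool.Agent.NPC.Cnt Pool.Agent.H695R3.SF
open Pool.Agent.H695R3.SF.M7_ns

attribute [local fun_prop] M7_ns.bt_poly
attribute [local fun_prop] M7_ns.adI_poly

/-- the test of `ValI` -/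
def valB (T : Inp) : Bool :=
  (List.range T.1.length).all (fun i => (List.range T.1.length).all (fun j =>
    decide (i = j) || !decide (T.1.getD i 0 = T.1.getD j 0))) &&
  T.2.all (fun p => decide (p.1 ∈ T.1) && decide (p.2 ∈ T.1) && !decide (p.1 = p.2))

theorem valB_iff (T : Inp) : valB T = true ↔ ValI T := by
  unfold valB ValI
  simp only [Bool.and_eq_true, decide_eq_true_eq, List.all_eq_true, List.mem_range,
    Bool.or_eq_true, Bool.not_eq_true', decide_eq_false_iff_not]
  have hnd : (∀ x < T.1.length, ∀ x_1 < T.1.length, x = x_1 ∨ ¬ T.1.getD x 0 = T.1.getD x_1 0) ↔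
      T.1.Nodup := by
    rw [List.nodup_iff_injective_get]
    constructor
    · intro h i j hij
      rcases h i i.2 j j.2 with h1 | h1
      · exact Fin.ext h1
      · rw [M8_ns.getD_lt _ _ i.2, M8_ns.getD_lt _ _ j.2] at h1
        exact absurd hij h1
    · intro h i hi j hj
      by_cases hij : i = j
      · exact Or.inl hij
      · right
        rw [M8_ns.getD_lt _ _ hi, M8_ns.getD_lt _ _ hj]
        intro h1
        exact hij (Fin.ext_iff.1 (h (a₁ := ⟨i, hi⟩) (a₂ := ⟨j, hj⟩) h1))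
  rw [hnd]
  constructor
  · rintro ⟨h1, h2⟩
    exact ⟨h1, fun p hp => ⟨(h2 p hp).1.1, (h2 p hp).1.2, (h2 p hp).2⟩⟩
  · rintro ⟨h1, h2⟩
    exact ⟨h1, fun p hp => ⟨⟨(h2 p hp).1, (h2 p hp).2.1⟩, (h2 p hp).2.2⟩⟩

theorem valB_poly {α : Type} [TEnc α] {T : α → Inp} (hT : Poly T) :
    Poly (fun a => valB (T a)) := by
  have hk : Poly (fun a => (T a).1) := by fun_prop
  have h2 : Poly (fun a => (List.range (T a).1.length).all (fun i =>
      (List.range (T a).1.length).all (fun j =>
      decide (i = j) || !decide ((T a).1.getD i 0 = (T a).1.getD j 0)))) := by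
    refine Poly.all (rg hk) ?_
    refine Poly.all (rg (k := fun q : α × ℕ => (T q.1).1) (by fun_prop)) ?_
    fun_prop
  have h3 : Poly (fun a => (T a).2.all (fun p => decide (p.1 ∈ (T a).1) && decide (p.2 ∈ (T a).1) &&
      !decide (p.1 = p.2))) := by fun_prop
  exact Poly.and h2 h3

/-- the relation -/
def RelC (c : Inp → Bool) (x : Inp × List Bool × List Bool) : Bool :=
  valB x.1 && c x.1 && isGr x.1.1.length x.2.1 0 &&
  isPM x.1.1.length x.2.1 1 && autI x.1.1.length x.2.1 && isPM x.1.1.length x.2.2 0 &&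
  embI x.1 x.1.1.length x.2.1 x.2.2

theorem RelC_poly (c : Inp → Bool) (hc : Poly c) : Poly (RelC c) := by
  unfold RelC
  have hT : Poly (fun x : Inp × List Bool × List Bool => x.1) := by fun_prop
  have hk : Poly (fun x : Inp × List Bool × List Bool => x.1.1) := by fun_prop
  have hy : Poly (fun x : Inp × List Bool × List Bool => x.2.1) := by fun_prop
  have hw : Poly (fun x : Inp × List Bool × List Bool => x.2.2) := by fun_prop
  exact Poly.and (Poly.and (Poly.and (Poly.and (Poly.and (Poly.and (valB_poly hT)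
    (hc.comp hT)) (isGr_poly hk hy 0)) (isPM_poly hk hy 1)) (autI_poly hk hy))
    (isPM_poly hk hw 0)) (embI_poly hT hk hy hw)

open M10_ns Classical in
theorem M10C (c : Inp → Bool) (T : Inp) (hv : ValI T) (hcT : c T = true) :
    Nat.card {y : List Bool // y.length = 2 * T.1.length * T.1.length ∧
      ∃ w : List Bool, w.length = 2 * T.1.length * T.1.length ∧ RelC c (T, y, w) = true} =
    Nat.card {p : SimpleGraph (Fin T.1.length) × Equiv.Perm (Fin T.1.length) //
      Emb p.1 (grP T) ∧ ∀ u v, p.1.Adj u v ↔ p.1.Adj (p.2 u) (p.2 v)} := by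
  have ht1 := (valB_iff T).2 hv
  set n := T.1.length with hn
  -- the condition on y
  have hex : ∀ (y : List Bool) (F : SimpleGraph (Fin n)),
      (∀ i j : Fin n, bt n y 0 i j = true ↔ F.Adj i j) →
      ((∃ w : List Bool, w.length = 2 * n * n ∧ RelC c (T, y, w) = true) ↔
        (isGr n y 0 = true ∧ isPM n y 1 = true ∧ autI n y = true ∧ Emb F (grP T))) := by
    intro y F hF
    have hrel : ∀ w, RelC c (T, y, w) = true ↔ (isGr n y 0 = true ∧
        isPM n y 1 = true ∧ autI n y = true ∧ isPM n w 0 = true ∧ embI T n y w = true) := by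
      intro w
      unfold RelC
      simp only [Bool.and_eq_true]
      constructor
      · rintro ⟨⟨⟨⟨⟨⟨_, _⟩, b⟩, c⟩, d⟩, e⟩, f⟩
        exact ⟨b, c, d, e, f⟩
      · rintro ⟨b, c, d, e, f⟩
        exact ⟨⟨⟨⟨⟨⟨ht1, hcT⟩, b⟩, c⟩, d⟩, e⟩, f⟩
    constructor
    · rintro ⟨w, _, hw⟩
      rw [hrel] at hw
      obtain ⟨b, c, d, e, f⟩ := hw
      refine ⟨b, c, d, ?_⟩
      obtain ⟨σ, hσ⟩ := (isPM_iff n w 0).1 e
      refine ⟨σ, fun u v huv => ?_⟩
      show adI T (σ u) (σ v) = true
      exact (embI_iff T n y w).1 f u v (σ u) (σ v) ((hσ _ _).2 rfl) ((hσ _ _).2 rfl)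
        ((hF _ _).2 huv)
    · rintro ⟨b, c, d, σ, hσ⟩
      set w := enc n (lf (fun i j : Fin n => decide (σ i = j))) (fun _ _ => false) with hw
      refine ⟨w, enc_length _ _ _, (hrel w).2 ⟨b, c, d, ?_, ?_⟩⟩
      · rw [isPM_iff]
        refine ⟨σ, fun i j => ?_⟩
        rw [hw, bt0 _ _ i.2 j.2, lf_eq, decide_eq_true_eq]
      · rw [embI_iff]
        intro i j i' j' h1 h2 h3
        rw [hw, bt0 _ _ i.2 i'.2, lf_eq, decide_eq_true_eq] at h1
        rw [hw, bt0 _ _ j.2 j'.2, lf_eq, decide_eq_true_eq] at h2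
        have := hσ i j ((hF _ _).1 h3)
        rw [h1, h2] at this
        exact this
  -- the map
  let Ψ : SimpleGraph (Fin n) × Equiv.Perm (Fin n) → List Bool := fun p =>
    enc n (lf (fun i j => decide (p.1.Adj i j))) (lf (fun i j => decide (p.2 i = j)))
  have hΨ0 : ∀ p (i j : Fin n), bt n (Ψ p) 0 i j = decide (p.1.Adj i j) := by
    intro p i j
    simp only [Ψ]
    rw [bt0 _ _ i.2 j.2, lf_eq]
  have hΨ1 : ∀ p (i j : Fin n), bt n (Ψ p) 1 i j = decide (p.2 i = j) := by
    intro p i j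
    simp only [Ψ]
    rw [bt1 _ _ i.2 j.2, lf_eq]
  have hgr : ∀ p, isGr n (Ψ p) 0 = true := by
    intro p
    rw [isGr_iff]
    intro i
    refine ⟨?_, fun j => ?_⟩
    · rw [hΨ0]; simp
    · rw [hΨ0, hΨ0, p.1.adj_comm]
  have hpm : ∀ p, isPM n (Ψ p) 1 = true := by
    intro p
    rw [isPM_iff]
    refine ⟨p.2, fun i j => ?_⟩
    rw [hΨ1, decide_eq_true_eq]
  have hau : ∀ p : SimpleGraph (Fin n) × Equiv.Perm (Fin n), autI n (Ψ p) = true ↔
      ∀ u v, p.1.Adj u v ↔ p.1.Adj (p.2 u) (p.2 v) := by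
    intro p
    rw [autI_iff]
    simp only [hΨ0, hΨ1, decide_eq_true_eq, decide_eq_decide]
    constructor
    · intro h u v
      exact h u v _ _ rfl rfl
    · rintro h i j i' j' rfl rfl
      exact h i j
  have hmaps : ∀ p : SimpleGraph (Fin n) × Equiv.Perm (Fin n),
      (Emb p.1 (grP T) ∧ ∀ u v, p.1.Adj u v ↔ p.1.Adj (p.2 u) (p.2 v)) →
      ((Ψ p).length = 2 * n * n ∧
        ∃ w : List Bool, w.length = 2 * n * n ∧ RelC c (T, Ψ p, w) = true) := by
    intro p hp
    refine ⟨enc_length _ _ _, ?_⟩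
    rw [hex (Ψ p) p.1 (fun i j => by rw [hΨ0, decide_eq_true_eq])]
    exact ⟨hgr p, hpm p, (hau p).2 hp.2, hp.1⟩
  symm
  apply Nat.card_congr
  refine Equiv.ofBijective (fun p => ⟨Ψ p.1, hmaps p.1 p.2⟩) ⟨?_, ?_⟩
  · rintro ⟨p, hp⟩ ⟨p', hp'⟩ heq
    have h1 : Ψ p = Ψ p' := congrArg Subtype.val heq
    apply Subtype.ext
    show p = p'
    apply Prod.ext
    · ext i j
      have := hΨ0 p i j
      rw [h1, hΨ0, decide_eq_decide] at this
      exact this.symm
    · ext i
      have := hΨ1 p i (p.2 i)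
      rw [h1, hΨ1, decide_eq_decide] at this
      have := this.2 rfl
      rw [this]
  · rintro ⟨y, hy, hw⟩
    have hgy : isGr n y 0 = true ∧ isPM n y 1 = true := by
      obtain ⟨w, _, hw⟩ := hw
      unfold RelC at hw
      simp only [Bool.and_eq_true] at hw
      obtain ⟨⟨⟨⟨⟨⟨_, a⟩, b⟩, c⟩, d⟩, e⟩, f⟩ := hw
      exact ⟨b, c⟩
    have hg := (isGr_iff n y 0).1 hgy.1
    let F : SimpleGraph (Fin n) :=
      { Adj := fun i j => bt n y 0 i j = true
        symm := ⟨fun i j h => by rw [← (hg i).2 j]; exact h⟩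
        loopless := ⟨fun i h => by rw [(hg i).1] at h; exact absurd h (by simp)⟩ }
    obtain ⟨σ, hσ⟩ := (isPM_iff n y 1).1 hgy.2
    have hΨy : Ψ (F, σ) = y := by
      apply ext_bt (enc_length _ _ _) hy
      · intro i j hi hj
        have := hΨ0 (F, σ) ⟨i, hi⟩ ⟨j, hj⟩
        rw [this]
        apply Bool.eq_iff_iff.2
        exact @decide_eq_true_iff (F.Adj ⟨i, hi⟩ ⟨j, hj⟩) (Classical.propDecidable _)
      · intro i j hi hj
        have := hΨ1 (F, σ) ⟨i, hi⟩ ⟨j, hj⟩
        rw [this]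
        have h2 := hσ ⟨i, hi⟩ ⟨j, hj⟩
        show decide (σ ⟨i, hi⟩ = ⟨j, hj⟩) = bt n y 1 i j
        have h3 : (bt n y 1 i j = true) ↔ σ ⟨i, hi⟩ = ⟨j, hj⟩ := h2
        by_cases h4 : σ ⟨i, hi⟩ = ⟨j, hj⟩
        · rw [h3.2 h4]; simp [h4]
        · have : bt n y 1 i j = false := by
            by_contra h5
            exact h4 (h3.1 (by simpa using h5))
          rw [this]; simp [h4]
    have hF := (hex y F (fun i j => Iff.rfl)).1 hw
    have hp : Emb F (grP T) ∧ ∀ u v, F.Adj u v ↔ F.Adj (σ u) (σ v) := by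
      refine ⟨hF.2.2.2, ?_⟩
      have := hF.2.2.1
      rw [← hΨy] at this
      exact (hau (F, σ)).1 this
    exact ⟨⟨(F, σ), hp⟩, Subtype.ext hΨy⟩

theorem memC (h5 : S_M5) (h6 : S_M6) (h9 : S_M9) (t6 : S_T6) (C : Inp → Prop) (c : Inp → Bool)
    (hc : Poly c) (hC : ∀ T, ValI T → (c T = true ↔ C T)) : InFPSharpP (strFn (numC C)) := by
  have hn : UPoly (fun T : Inp => T.1.length) := UPoly.length (Poly.fst Poly.id)
  have hq : UPoly (fun T : Inp => 2 * T.1.length * T.1.length) :=
    UPoly.mul (UPoly.mul (UPoly.const 2) hn) hn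
  refine h5 Inp (RelC c) (fun T => 2 * T.1.length * T.1.length)
    (fun T => 2 * T.1.length * T.1.length)
    (fun x => x.2 / x.1.1.length.factorial) (numC C) (RelC_poly c hc) hq hq ?_ fun T => ?_
  · exact Poly.div (Poly.snd Poly.id) (Uc.poly_ufact (hn.comp (Poly.fst Poly.id)))
  · by_cases hT : ValI T ∧ C T
    · have e1 : numC C T = cls (grP T) := by
        unfold numC
        rw [if_pos hT]
        exact t6 _ _ _ _ (h9 T hT.1.1)
      rw [M10C c T hT.1 ((hC T hT.1).2 hT.2), e1, ← h6 T.1.length (grP T)]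
      exact (Nat.mul_div_cancel _ (Nat.factorial_pos _)).symm
    · have e1 : numC C T = 0 := by
        unfold numC
        rw [if_neg hT]
      have e2 : Nat.card {y : List Bool // y.length = 2 * T.1.length * T.1.length ∧
          ∃ w : List Bool, w.length = 2 * T.1.length * T.1.length ∧ RelC c (T, y, w) = true} = 0 := by
        rw [Nat.card_eq_zero]
        left
        refine ⟨fun y => ?_⟩
        obtain ⟨y, _, w, hw, h⟩ := y
        apply hT
        simp only [RelC, Bool.and_eq_true] at h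
        have hv := (valB_iff T).1 h.1.1.1.1.1.1
        exact ⟨hv, (hC T hv).1 h.1.1.1.1.1.2⟩
      beta_reduce
      rw [e1, e2]
      simp

/-! ### Trees of bounded radius -/

/-- there is a walk of length at most `k` -/
def reach (T : Inp) : ℕ → ℕ → ℕ → Bool
  | 0, i, j => decide (i = j)
  | k + 1, i, j => decide (i = j) ||
      (List.range T.1.length).any (fun l => adI T i l && reach T k l j)

theorem reach_poly (k : ℕ) : Poly (fun q : Inp × ℕ × ℕ => reach q.1 k q.2.1 q.2.2) := by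
  induction k with
  | zero =>
    simp only [reach]
    fun_prop
  | succ k ih =>
    simp only [reach]
    refine Poly.or (by fun_prop) ?_
    refine Poly.any (rg (k := fun q : Inp × ℕ × ℕ => q.1.1) (by fun_prop)) ?_
    refine Poly.and (by fun_prop) ?_
    exact ih.comp (f := fun q : (Inp × ℕ × ℕ) × ℕ => (q.1.1, q.2, q.1.2.2))
      (Poly.pair (by fun_prop) (Poly.pair (by fun_prop) (by fun_prop)))

theorem reach_iff (T : Inp) (k : ℕ) : ∀ i j : Fin T.1.length, reach T k i j = true ↔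
    ∃ p : (grP T).Walk i j, p.length ≤ k := by
  induction k with
  | zero =>
    intro i j
    simp only [reach, decide_eq_true_eq]
    constructor
    · intro h
      have : i = j := Fin.ext h
      subst this
      exact ⟨SimpleGraph.Walk.nil, by simp⟩
    · rintro ⟨p, hp⟩
      cases p with
      | nil => rfl
      | cons h q =>
        rw [SimpleGraph.Walk.length_cons] at hp
        omega
  | succ k ih =>
    intro i j
    simp only [reach, Bool.or_eq_true, decide_eq_true_eq, List.any_eq_true, List.mem_range,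
      Bool.and_eq_true]
    constructor
    · rintro (h | ⟨l, hl, h1, h2⟩)
      · have : i = j := Fin.ext h
        subst this
        exact ⟨SimpleGraph.Walk.nil, by simp⟩
      · obtain ⟨p, hp⟩ := (ih ⟨l, hl⟩ j).1 h2
        have hadj : (grP T).Adj i ⟨l, hl⟩ := h1
        refine ⟨SimpleGraph.Walk.cons hadj p, ?_⟩
        rw [SimpleGraph.Walk.length_cons]
        omega
    · rintro ⟨p, hp⟩
      cases p with
      | nil => exact Or.inl rfl
      | @cons _ l _ h q =>
        right
        rw [SimpleGraph.Walk.length_cons] at hp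
        exact ⟨l, l.2, h, (ih l j).2 ⟨q, by omega⟩⟩

/-- the test of the radius -/
def radB (h : ℕ) (T : Inp) : Bool :=
  (List.range T.1.length).any (fun i => (List.range T.1.length).all (fun j => reach T h i j))

theorem radB_poly (h : ℕ) : Poly (radB h) := by
  unfold radB
  refine Poly.any (rg (k := fun q : Inp => q.1) (by fun_prop)) ?_
  refine Poly.all (rg (k := fun q : Inp × ℕ => q.1.1) (by fun_prop)) ?_
  exact (reach_poly h).comp (f := fun q : (Inp × ℕ) × ℕ => (q.1.1, q.1.2, q.2))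
      (Poly.pair (by fun_prop) (Poly.pair (by fun_prop) (by fun_prop)))

theorem radB_iff (h : ℕ) (T : Inp) : radB h T = true ↔
    ∃ r : Fin T.1.length, ∀ v : Fin T.1.length, ∃ p : (grP T).Walk r v, p.length ≤ h := by
  unfold radB
  simp only [List.any_eq_true, List.mem_range, List.all_eq_true]
  constructor
  · rintro ⟨i, hi, hall⟩
    exact ⟨⟨i, hi⟩, fun v => (reach_iff T h ⟨i, hi⟩ v).1 (hall v v.2)⟩
  · rintro ⟨r, hr⟩
    exact ⟨r, r.2, fun j hj => (reach_iff T h r ⟨j, hj⟩).2 (hr ⟨j, hj⟩)⟩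

theorem rad_iff (h : ℕ) (T : Inp) (hT : TreeI T) : Rad h T ↔ radB h T = true := by
  rw [radB_iff]
  obtain ⟨e⟩ := M8_ns.iso T hT.1
  constructor
  · rintro ⟨r, hr⟩
    refine ⟨e.symm r, fun v => ?_⟩
    obtain ⟨p, hp⟩ := hT.2.2.1.exists_walk_length_eq_dist r (e v)
    have h1 := hr (e v)
    rw [← hp] at h1
    have q := p.map e.symm.toHom
    have hev : e.symm.toHom (e v) = v := e.symm_apply_apply v
    refine ⟨(p.map e.symm.toHom).copy rfl hev, ?_⟩
    rw [SimpleGraph.Walk.length_copy, SimpleGraph.Walk.length_map]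
    exact h1
  · rintro ⟨r, hr⟩
    refine ⟨e r, fun v => ?_⟩
    obtain ⟨p, hp⟩ := hr (e.symm v)
    have hev : e.toHom (e.symm v) = v := e.apply_symm_apply v
    have h1 := SimpleGraph.dist_le ((p.map e.toHom).copy rfl hev)
    rw [SimpleGraph.Walk.length_copy, SimpleGraph.Walk.length_map] at h1
    exact h1.trans hp

/-- trees of radius at most `h` are recognised in polynomial time -/
theorem tree_rad_test (h8 : S_M8) (h : ℕ) : Poly (fun T : Inp => tr1I T && radB h T) ∧
    ∀ T, ValI T → ((tr1I T && radB h T) = true ↔ ((grI T).IsTree ∧ Rad h T)) := by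
  refine ⟨Poly.and (tr1I_poly Poly.id) (radB_poly h), fun T hv => ?_⟩
  rw [Bool.and_eq_true]
  constructor
  · rintro ⟨h1, h2⟩
    obtain ⟨r, hr⟩ := (radB_iff h T).1 h2
    have hn : 1 ≤ T.1.length := by
      have := r.2
      omega
    haveI : Nonempty (Fin T.1.length) := ⟨r⟩
    have hc : (grP T).Connected := by
      refine ⟨fun i j => ?_⟩
      obtain ⟨p, _⟩ := hr i
      obtain ⟨q, _⟩ := hr j
      exact p.reachable.symm.trans q.reachable
    have hT : TreeI T := (h8 T).2 ⟨h1, M8_ns.tr2_of_conn T hn hc⟩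
    exact ⟨hT.2.2, (rad_iff h T hT).2 h2⟩
  · rintro ⟨h1, h2⟩
    have hT : TreeI T := ⟨hv.1, hv.2, h1⟩
    exact ⟨((h8 T).1 hT).1, (rad_iff h T hT).1 h2⟩

end Pool.Agent.Y570.SF
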