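import Pool.Agent.H695R3.SF.Defs2

/-!
# Counting unlabelled spanning subgraphs of the graphs of a class
-/

set_option autoImplicit false

namespace Pool.Agent.Y570.SF

open Pool.Agent.NPC Pool.Agent.NPC.Cnt Pool.Agent.H695R3.SF

/-- the input describes a graph: no vertex is listed twice, the edges join different listed
vertices -/
def ValI (T : Inp) : Prop :=
  T.1.Nodup ∧ ∀ p ∈ T.2, p.1 ∈ T.1 ∧ p.2 ∈ T.1 ∧ p.1 ≠ p.2

open Classical in
/-- the number of isomorphism classes of the spanning subgraphs of a graph of the class `C`, `0` for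
all other inputs -/
noncomputable def numC (C : Inp → Prop) (T : Inp) : ℕ := if ValI T ∧ C T then cls (grI T) else 0

/-- some vertex has distance at most `h` from all vertices (used for trees only) -/
def Rad (h : ℕ) (T : Inp) : Prop :=
  ∃ r : {v : ℕ // v ∈ T.1}, ∀ v : {v : ℕ // v ∈ T.1}, (grI T).dist r v ≤ h

end Pool.Agent.Y570.SF
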